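import Mathlib
import Pool.Agent.H247R2.Warren

/-!
# MP_38bec9_co: plane separations are not bounded by the separation dimension

The separation dimension `π(G)` is the least number of linear orders of the vertices such that any
two disjoint edges are separated by one of them; `π₃(G)` is the least number of directions of planes
in a separating embedding of `G` in three-space. We answer Q1 in the negative: `π₃` is not bounded
by a function of `π`.

The graphs are the lifts of `K₁₄`: the vertex set is `Fin 14 × Fin n`, and between any two of the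
14 classes there is a perfect matching given by a permutation of `Fin n`. Every lift has separation
dimension at most `2 · 91 = 182` (two orders for each of the 91 pairs of classes handle all pairs of
disjoint edges), whereas the number of lifts having a `P`-separating embedding with `C` planes is at
most the number of sign patterns of `8 (14n)² C` polynomials of degree at most two in `42 n + 3 C`
variables, times `(log n)^{O(C n)}`, which is smaller than the number `(n!)^91` of all lifts.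
The bound for the number of sign patterns is taken from `Pool.Agent.H247R2.Warren`.
-/

set_option autoImplicit false

namespace Pool.Agent.Results.MP_38bec9_co.NotBounded
open Finset

/-- Three-dimensional Euclidean space. -/
abbrev E3 : Type := EuclideanSpace ℝ (Fin 3)

variable {V : Type}

/-- `ab` and `cd` are two disjoint edges of `G`. -/
def DisjointEdges (G : SimpleGraph V) (a b c d : V) : Prop :=
  G.Adj a b ∧ G.Adj c d ∧ a ≠ c ∧ a ≠ d ∧ b ≠ c ∧ b ≠ d

/-- The linear order `o` puts both `a, b` before both `c, d`. -/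
def Before (o : LinearOrder V) (a b c d : V) : Prop :=
  o.lt a c ∧ o.lt a d ∧ o.lt b c ∧ o.lt b d

/-- The family `σ` of linear orders is pairwise suitable for `G`. -/
def PairwiseSuitable (G : SimpleGraph V) {k : ℕ} (σ : Fin k → LinearOrder V) : Prop :=
  ∀ a b c d, DisjointEdges G a b c d → ∃ i, Before (σ i) a b c d ∨ Before (σ i) c d a b

/-- The separation dimension `π(G)`. -/
noncomputable def sepDim (G : SimpleGraph V) : ℕ :=
  sInf {k | ∃ σ : Fin k → LinearOrder V, PairwiseSuitable G σ}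

/-- `S` and `T` lie in the two different open half-spaces of the plane `⟨N, x⟩ = t`, in this
order. -/
def SeparatedBy (N : E3) (t : ℝ) (S T : Set E3) : Prop :=
  (∀ x ∈ S, inner ℝ N x < t) ∧ ∀ x ∈ T, t < inner ℝ N x

/-- The map `φ` is `P`-separating for `G`, where `P` consists of `m` planes with normal vectors
`N 0, …, N (m-1)`: any two disjoint edges are separated by a plane parallel to one of them. -/
def PlaneSeparating (G : SimpleGraph V) {m : ℕ} (N : Fin m → E3) (φ : V → E3) : Prop :=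
  ∀ a b c d, DisjointEdges G a b c d → ∃ (i : Fin m) (t : ℝ),
    SeparatedBy (N i) t (segment ℝ (φ a) (φ b)) (segment ℝ (φ c) (φ d)) ∨
    SeparatedBy (N i) t (segment ℝ (φ c) (φ d)) (segment ℝ (φ a) (φ b))

/-- There are a set `P` of `m` pairwise non-parallel planes in `ℝ³` (given by normal vectors) and a
`P`-separating injective map `φ : V → ℝ³`. -/
def HasPlaneSeparation (G : SimpleGraph V) (m : ℕ) : Prop :=
  ∃ (N : Fin m → E3) (φ : V → E3), (∀ i, N i ≠ 0) ∧
    (∀ i j, i ≠ j → LinearIndependent ℝ ![N i, N j]) ∧ Function.Injective φ ∧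
    PlaneSeparating G N φ

/-- The parameter `π₃(G)`, with value `⊤` if there is no plane-separating embedding. -/
noncomputable def pi3 (G : SimpleGraph V) : ℕ∞ :=
  sInf {k : ℕ∞ | ∃ m : ℕ, k = m ∧ HasPlaneSeparation G m}

/-! ### The graphs -/

/-- The pairs `i < j` of elements of `Fin 14`. -/
abbrev Pr : Type := {p : Fin 14 × Fin 14 // p.1 < p.2}

/-- The `n`-lift of the complete graph `K₁₄` given by a permutation for every pair. -/
def lift (n : ℕ) (τ : Pr → Equiv.Perm (Fin n)) : SimpleGraph (Fin 14 × Fin n) where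
  Adj u v := (∃ h : u.1 < v.1, τ ⟨(u.1, v.1), h⟩ u.2 = v.2) ∨
    ∃ h : v.1 < u.1, τ ⟨(v.1, u.1), h⟩ v.2 = u.2
  symm := ⟨fun _ _ h => h.symm⟩
  loopless := ⟨fun u h => by
    rcases h with ⟨h, _⟩ | ⟨h, _⟩ <;> exact lt_irrefl _ h⟩

/-! ### The level of two natural numbers -/

lemma lev_exists (a b : ℕ) : ∃ t, a / 2 ^ t = b / 2 ^ t :=
  ⟨a + b, by
    have h1 : a < 2 ^ (a + b) := lt_of_le_of_lt (Nat.le_add_right a b) Nat.lt_two_pow_self
    have h2 : b < 2 ^ (a + b) := lt_of_le_of_lt (Nat.le_add_left b a) Nat.lt_two_pow_self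
    rw [Nat.div_eq_of_lt h1, Nat.div_eq_of_lt h2]⟩

/-- the least `t` with `a / 2 ^ t = b / 2 ^ t` -/
def lev (a b : ℕ) : ℕ := Nat.find (lev_exists a b)

lemma lev_spec (a b : ℕ) : a / 2 ^ lev a b = b / 2 ^ lev a b := Nat.find_spec (lev_exists a b)

lemma lev_min {a b t : ℕ} (h : t < lev a b) : a / 2 ^ t ≠ b / 2 ^ t :=
  Nat.find_min (lev_exists a b) h

lemma lev_le {a b t : ℕ} (h : a / 2 ^ t = b / 2 ^ t) : lev a b ≤ t :=
  Nat.find_min' (lev_exists a b) h

lemma lev_lt {a b t : ℕ} (ha : a < 2 ^ t) (hb : b < 2 ^ t) : lev a b < t + 1 :=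
  Nat.lt_succ_of_le (lev_le (by rw [Nat.div_eq_of_lt ha, Nat.div_eq_of_lt hb]))

/-- Two pairs with the same level in the same node cannot be separated. -/
lemma crossing {a b c d : ℕ} (h : lev a b = lev c d) (hn : a / 2 ^ lev a b = c / 2 ^ lev a b) :
    ¬ (a < c ∧ a < d ∧ b < c ∧ b < d) := by
  rintro ⟨h1, h2, h3, h4⟩
  rcases hl : lev a b with _ | t
  · rw [hl, pow_zero, Nat.div_one, Nat.div_one] at hn
    omega
  · have s1 := lev_spec a b
    have s2 := lev_spec c d
    have m1 := lev_min (a := a) (b := b) (t := t) (by omega)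
    have m2 := lev_min (a := c) (b := d) (t := t) (by omega)
    rw [← h] at s2
    rw [hl, pow_succ, ← Nat.div_div_eq_div_mul, ← Nat.div_div_eq_div_mul] at s1 s2 hn
    have k1 : a / 2 ^ t ≤ c / 2 ^ t := Nat.div_le_div_right h1.le
    have k2 : a / 2 ^ t ≤ d / 2 ^ t := Nat.div_le_div_right h2.le
    have k3 : b / 2 ^ t ≤ c / 2 ^ t := Nat.div_le_div_right h3.le
    have k4 : b / 2 ^ t ≤ d / 2 ^ t := Nat.div_le_div_right h4.le
    omega


/-! ### The separation dimension of the lifts -/

/-- position in increasing or decreasing order -/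
def pos {n : ℕ} (b : Bool) (x : Fin n) : ℕ := if b then x.val else n - 1 - x.val

lemma pos_lt {n : ℕ} (b : Bool) (x : Fin n) : pos b x + 1 ≤ n := by
  unfold pos
  have := x.2
  split_ifs <;> omega

lemma pos_inj {n : ℕ} (b : Bool) {x y : Fin n} (h : pos b x = pos b y) : x = y := by
  unfold pos at h
  have h1 := x.2
  have h2 := y.2
  apply Fin.ext
  split_ifs at h <;> omega

/-- the keys of the orders -/
def key {n : ℕ} (τ : Pr → Equiv.Perm (Fin n)) (e : Pr) (b : Bool) (v : Fin 14 × Fin n) : ℕ :=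
  if v.1 = e.1.1 then 2 * pos b v.2
  else if v.1 = e.1.2 then 2 * pos b ((τ e).symm v.2) + 1
  else 2 * n + (v.1.val * n + v.2.val)

lemma key_inj {n : ℕ} (τ : Pr → Equiv.Perm (Fin n)) (e : Pr) (b : Bool) :
    Function.Injective (key τ e b) := by
  rintro ⟨i, x⟩ ⟨j, y⟩ h
  have hx := x.2
  have hy := y.2
  have p1 := pos_lt b x
  have p2 := pos_lt b y
  have p3 := pos_lt b ((τ e).symm x)
  have p4 := pos_lt b ((τ e).symm y)
  unfold key at h
  simp only at h
  by_cases h1 : i = e.1.1 <;> by_cases h2 : j = e.1.1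
  · rw [if_pos h1, if_pos h2] at h
    rw [h1, h2, pos_inj b (x := x) (y := y) (by omega)]
  · rw [if_pos h1, if_neg h2] at h
    split_ifs at h <;> omega
  · rw [if_neg h1, if_pos h2] at h
    split_ifs at h <;> omega
  · rw [if_neg h1, if_neg h2] at h
    by_cases h3 : i = e.1.2 <;> by_cases h4 : j = e.1.2
    · rw [if_pos h3, if_pos h4] at h
      have := pos_inj b (x := (τ e).symm x) (y := (τ e).symm y) (by omega)
      rw [h3, h4, (τ e).symm.injective this]
    · rw [if_pos h3, if_neg h4] at h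
      omega
    · rw [if_neg h3, if_pos h4] at h
      omega
    · rw [if_neg h3, if_neg h4] at h
      have h5 : i.val * n + x.val = j.val * n + y.val := by omega
      have hn : 0 < n := by omega
      have h6 : i.val = j.val := by
        have e1 : (i.val * n + x.val) / n = i.val := by
          rw [Nat.mul_comm, Nat.mul_add_div hn, Nat.div_eq_of_lt hx, Nat.add_zero]
        have e2 : (j.val * n + y.val) / n = j.val := by
          rw [Nat.mul_comm, Nat.mul_add_div hn, Nat.div_eq_of_lt hy, Nat.add_zero]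
        rw [← e1, ← e2, h5]
      have h7 : x.val = y.val := by
        rw [h6] at h5
        omega
      rw [Fin.ext h6, Fin.ext h7]

/-- the orders -/
@[instance_reducible] def ord {n : ℕ} (τ : Pr → Equiv.Perm (Fin n)) (e : Pr) (b : Bool) :
    LinearOrder (Fin 14 × Fin n) :=
  LinearOrder.lift' (key τ e b) (key_inj τ e b)

lemma ord_lt {n : ℕ} (τ : Pr → Equiv.Perm (Fin n)) (e : Pr) (b : Bool) (u v : Fin 14 × Fin n) :
    (ord τ e b).lt u v ↔ key τ e b u < key τ e b v := Iff.rfl

/-- an edge is before a disjoint edge in one of the two orders of its pair -/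
lemma suit_aux {n : ℕ} (τ : Pr → Equiv.Perm (Fin n)) (e : Pr) (x : Fin n) (c d : Fin 14 × Fin n)
    (hcd : (lift n τ).Adj c d) (hca : c ≠ (e.1.1, x)) (hcb : c ≠ (e.1.2, τ e x))
    (hda : d ≠ (e.1.1, x)) (hdb : d ≠ (e.1.2, τ e x)) :
    ∃ b : Bool, Before (ord τ e b) (e.1.1, x) (e.1.2, τ e x) c d := by
  have hij : e.1.1 < e.1.2 := e.2
  have hne : e.1.2 ≠ e.1.1 := hij.ne'
  -- the index of a vertex
  have key1 : ∀ b, key τ e b (e.1.1, x) = 2 * pos b x := by
    intro b; simp [key]
  have key2 : ∀ b, key τ e b (e.1.2, τ e x) = 2 * pos b x + 1 := by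
    intro b; simp [key, hne]
  -- a common index for c and d
  have main : (∃ y : Fin n, y ≠ x ∧ ∀ b, ∀ v, v = c ∨ v = d →
      (2 * pos b y ≤ key τ e b v ∨ 2 * n ≤ key τ e b v)) ∨
      ∀ b, 2 * n ≤ key τ e b c ∧ 2 * n ≤ key τ e b d := by
    have hidx : ∀ v : Fin 14 × Fin n, v ≠ (e.1.1, x) → v ≠ (e.1.2, τ e x) →
        (∃ y : Fin n, y ≠ x ∧ ((v = (e.1.1, y)) ∨ v = (e.1.2, τ e y))) ∨
        ∀ b, 2 * n ≤ key τ e b v := by
      rintro ⟨i, z⟩ h1 h2
      by_cases hi : i = e.1.1
      · left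
        refine ⟨z, ?_, Or.inl (by rw [hi])⟩
        rintro rfl
        exact h1 (by rw [hi])
      · by_cases hj : i = e.1.2
        · left
          refine ⟨(τ e).symm z, ?_, Or.inr (by rw [Equiv.apply_symm_apply, hj])⟩
          rintro h3
          apply h2
          rw [← h3, Equiv.apply_symm_apply, hj]
        · right
          intro b
          unfold key
          simp only [if_neg hi, if_neg hj]
          omega
    have hk : ∀ (b : Bool) (y : Fin n) (v : Fin 14 × Fin n),
        (v = (e.1.1, y)) ∨ v = (e.1.2, τ e y) → 2 * pos b y ≤ key τ e b v := by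
      rintro b y v (rfl | rfl)
      · simp [key]
      · simp [key, hne]
    rcases hidx c hca hcb with ⟨y, hy, hcy⟩ | hc
    · rcases hidx d hda hdb with ⟨y', hy', hdy⟩ | hd
      · -- both in the classes, hence the same index
        have hyy : y = y' := by
          rcases hcd with ⟨h, hτ⟩ | ⟨h, hτ⟩
          · rcases hcy with rfl | rfl
            · rcases hdy with rfl | rfl
              · exact absurd h (lt_irrefl _)
              · exact (τ e).injective hτ
            · rcases hdy with rfl | rfl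
              · exact absurd h (not_lt_of_gt hij)
              · exact absurd h (lt_irrefl _)
          · rcases hcy with rfl | rfl
            · rcases hdy with rfl | rfl
              · exact absurd h (lt_irrefl _)
              · exact absurd h (not_lt_of_gt hij)
            · rcases hdy with rfl | rfl
              · exact ((τ e).injective hτ).symm
              · exact absurd h (lt_irrefl _)
        subst hyy
        refine Or.inl ⟨y, hy, ?_⟩
        rintro b v (rfl | rfl)
        · exact Or.inl (hk b y _ hcy)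
        · exact Or.inl (hk b y _ hdy)
      · refine Or.inl ⟨y, hy, ?_⟩
        rintro b v (rfl | rfl)
        · exact Or.inl (hk b y _ hcy)
        · exact Or.inr (hd b)
    · rcases hidx d hda hdb with ⟨y', hy', hdy⟩ | hd
      · refine Or.inl ⟨y', hy', ?_⟩
        rintro b v (rfl | rfl)
        · exact Or.inr (hc b)
        · exact Or.inl (hk b y' _ hdy)
      · exact Or.inr fun b => ⟨hc b, hd b⟩
  rcases main with main | main
  swap
  · refine ⟨true, ?_⟩
    have hp := pos_lt true x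
    unfold Before
    simp only [ord_lt, key1, key2]
    have := main true
    refine ⟨?_, ?_, ?_, ?_⟩ <;> omega
  obtain ⟨y, hyx, hy⟩ := main
  have hxy : ∃ b : Bool, pos b x < pos b y := by
    rcases lt_or_gt_of_ne hyx with h | h
    · refine ⟨false, ?_⟩
      have h1 : y.val < x.val := h
      have := x.2
      simp only [pos, Bool.false_eq_true, if_false]
      omega
    · exact ⟨true, by simpa [pos] using h⟩
  obtain ⟨b, hb⟩ := hxy
  refine ⟨b, ?_⟩
  have hp := pos_lt b x
  unfold Before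
  simp only [ord_lt, key1, key2]
  have hc := hy b c (Or.inl rfl)
  have hd := hy b d (Or.inr rfl)
  refine ⟨?_, ?_, ?_, ?_⟩ <;> omega

lemma adj_form {n : ℕ} (τ : Pr → Equiv.Perm (Fin n)) {a b : Fin 14 × Fin n}
    (h : (lift n τ).Adj a b) : ∃ (e : Pr) (x : Fin n),
      (a = (e.1.1, x) ∧ b = (e.1.2, τ e x)) ∨ (b = (e.1.1, x) ∧ a = (e.1.2, τ e x)) := by
  rcases h with ⟨h, hτ⟩ | ⟨h, hτ⟩
  · exact ⟨⟨(a.1, b.1), h⟩, a.2, Or.inl ⟨rfl, by rw [hτ]⟩⟩
  · exact ⟨⟨(b.1, a.1), h⟩, b.2, Or.inr ⟨rfl, by rw [hτ]⟩⟩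

set_option maxRecDepth 100000 in
lemma card_Pr : Fintype.card Pr = 91 := by decide

lemma sepDim_le {n : ℕ} (τ : Pr → Equiv.Perm (Fin n)) : sepDim (lift n τ) ≤ 182 := by
  have hcard : Fintype.card (Pr × Bool) = 182 := by
    rw [Fintype.card_prod, card_Pr, Fintype.card_bool]
  rw [← hcard]
  apply Nat.sInf_le
  let E := Fintype.equivFin (Pr × Bool)
  refine ⟨fun k => ord τ (E.symm k).1 (E.symm k).2, ?_⟩
  rintro a b c d ⟨hab, hcd, hac, had, hbc, hbd⟩
  obtain ⟨e, x, ⟨rfl, rfl⟩ | ⟨rfl, rfl⟩⟩ := adj_form τ hab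
  · obtain ⟨β, hβ⟩ := suit_aux τ e x c d hcd hac.symm hbc.symm had.symm hbd.symm
    refine ⟨E (e, β), Or.inl ?_⟩
    simp only [Equiv.symm_apply_apply]
    exact hβ
  · obtain ⟨β, hβ⟩ := suit_aux τ e x c d hcd hbc.symm hac.symm hbd.symm had.symm
    refine ⟨E (e, β), Or.inl ?_⟩
    simp only [Equiv.symm_apply_apply]
    exact ⟨hβ.2.2.1, hβ.2.2.2, hβ.1, hβ.2.1⟩


/-! ### Counting -/

/-- abstract separation by projections -/
def Sep {V : Type} (G : SimpleGraph V) {C : ℕ} (p : Fin C → V → ℝ) : Prop :=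
  ∀ a b c d, DisjointEdges G a b c d → ∃ k,
    (p k a < p k c ∧ p k a < p k d ∧ p k b < p k c ∧ p k b < p k d) ∨
    (p k c < p k a ∧ p k c < p k b ∧ p k d < p k a ∧ p k d < p k b)

/-- the projections onto the normals -/
noncomputable def proj {V : Type} {C : ℕ} (N : Fin C → E3) (φ : V → E3) (k : Fin C) (v : V) : ℝ :=
  inner ℝ (N k) (φ v)

lemma sep_of_plane {V : Type} {G : SimpleGraph V} {m C : ℕ} (hm : m ≤ C)
    (h : HasPlaneSeparation G m) : ∃ (N : Fin C → E3) (φ : V → E3), Sep G (proj N φ) := by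
  obtain ⟨N, φ, _, _, _, hsep⟩ := h
  refine ⟨fun k => if hk : (k : ℕ) < m then N ⟨k, hk⟩ else 0, φ, ?_⟩
  intro a b c d hd
  obtain ⟨i, t, h | h⟩ := hsep a b c d hd
  · refine ⟨⟨i, lt_of_lt_of_le i.2 hm⟩, Or.inl ?_⟩
    have ha := h.1 _ (left_mem_segment ℝ (φ a) (φ b))
    have hb := h.1 _ (right_mem_segment ℝ (φ a) (φ b))
    have hc := h.2 _ (left_mem_segment ℝ (φ c) (φ d))
    have hd := h.2 _ (right_mem_segment ℝ (φ c) (φ d))
    simp only [proj, i.2, dif_pos, Fin.eta]
    exact ⟨ha.trans hc, ha.trans hd, hb.trans hc, hb.trans hd⟩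
  · refine ⟨⟨i, lt_of_lt_of_le i.2 hm⟩, Or.inr ?_⟩
    have ha := h.2 _ (left_mem_segment ℝ (φ a) (φ b))
    have hb := h.2 _ (right_mem_segment ℝ (φ a) (φ b))
    have hc := h.1 _ (left_mem_segment ℝ (φ c) (φ d))
    have hd := h.1 _ (right_mem_segment ℝ (φ c) (φ d))
    simp only [proj, i.2, dif_pos, Fin.eta]
    exact ⟨hc.trans ha, hc.trans hb, hd.trans ha, hd.trans hb⟩

/-- the sign vector of the projections -/
noncomputable def sgn {V : Type} {C : ℕ} (p : Fin C → V → ℝ) (j : V × V × Fin C) : SignType :=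
  SignType.sign (p j.2.2 j.1 - p j.2.2 j.2.1)

/-- the rank of a vertex, computed from a sign vector -/
noncomputable def rk {V : Type} [Fintype V] {C : ℕ} (s : V × V × Fin C → SignType) (k : Fin C)
    (v : V) : ℕ := by
  classical
  exact (univ.filter fun u => s (u, v, k) = -1).card

lemma rk_lt_of_lt {V : Type} [Fintype V] {C : ℕ} (p : Fin C → V → ℝ) (k : Fin C) {u v : V}
    (h : p k u < p k v) : rk (sgn p) k u < rk (sgn p) k v := by
  classical
  unfold rk
  apply Finset.card_lt_card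
  rw [Finset.ssubset_iff_of_subset]
  · refine ⟨u, ?_, ?_⟩
    · simp only [mem_filter, mem_univ, true_and, sgn, sign_eq_neg_one_iff]
      linarith
    · intro hu
      rw [mem_filter] at hu
      have h2 := hu.2
      simp [sgn] at h2
  · intro w
    simp only [mem_filter, mem_univ, true_and, sgn, sign_eq_neg_one_iff]
    intro hw
    linarith

lemma rk_le_card {V : Type} [Fintype V] {C : ℕ} (s : V × V × Fin C → SignType) (k : Fin C)
    (v : V) : rk s k v ≤ Fintype.card V := by
  classical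
  unfold rk
  exact Finset.card_le_univ _

/-- the labels: the levels of the edges, recorded at both end points -/
noncomputable def lab {n C : ℕ} (s : (Fin 14 × Fin n) × (Fin 14 × Fin n) × Fin C → SignType)
    (τ : Pr → Equiv.Perm (Fin n)) (e : Pr) (z : Fin n ⊕ Fin n) (k : Fin C) : ℕ :=
  match z with
  | Sum.inl x => lev (rk s k (e.1.1, x)) (rk s k (e.1.2, τ e x))
  | Sum.inr y => lev (rk s k (e.1.1, (τ e).symm y)) (rk s k (e.1.2, y))

/-- the sign vector and the labels determine the permutations -/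
lemma lab_inj {n C : ℕ} (τ τ' : Pr → Equiv.Perm (Fin n))
    (p : Fin C → (Fin 14 × Fin n) → ℝ) (hp : Sep (lift n τ) p)
    (h : ∀ e z k, lab (sgn p) τ e z k = lab (sgn p) τ' e z k) : τ = τ' := by
  funext e
  apply Equiv.ext
  intro x
  by_contra hne
  set s := sgn p with hs
  set y := τ e x with hy
  set y' := τ' e x with hy'
  set x'' := (τ e).symm y' with hx''
  have hyx : τ e x'' = y' := by rw [hx'', Equiv.apply_symm_apply]
  have hxx : x'' ≠ x := by
    intro h1
    rw [h1] at hyx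
    exact hne (hy.symm.trans (hy.trans hyx))
  have hij : e.1.1 < e.1.2 := e.2
  have hdis : DisjointEdges (lift n τ) (e.1.1, x) (e.1.2, y) (e.1.1, x'') (e.1.2, y') := by
    refine ⟨Or.inl ⟨hij, hy.symm⟩, Or.inl ⟨hij, hyx⟩, ?_, ?_, ?_, ?_⟩
    · intro h1
      exact hxx (congrArg Prod.snd h1).symm
    · intro h1
      exact hij.ne (congrArg Prod.fst h1)
    · intro h1
      exact hij.ne' (congrArg Prod.fst h1)
    · intro h1
      exact hne (congrArg Prod.snd h1)
  obtain ⟨k, hk⟩ := hp _ _ _ _ hdis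
  have l1 := h e (Sum.inl x) k
  have l2 := h e (Sum.inr y') k
  simp only [lab] at l1 l2
  have hxs : (τ' e).symm y' = x := by rw [hy', Equiv.symm_apply_apply]
  rw [hxs] at l2
  rw [← hx''] at l2
  rw [← hy, ← hy'] at l1
  -- l1 : lev (x, y) = lev (x, y'),  l2 : lev (x'', y') = lev (x, y')
  have hnode := lev_spec (rk s k (e.1.1, x)) (rk s k (e.1.2, y'))
  have hnode2 := lev_spec (rk s k (e.1.1, x'')) (rk s k (e.1.2, y'))
  rw [l2] at hnode2
  have hcom : rk s k (e.1.1, x) / 2 ^ lev (rk s k (e.1.1, x)) (rk s k (e.1.2, y))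
      = rk s k (e.1.1, x'') / 2 ^ lev (rk s k (e.1.1, x)) (rk s k (e.1.2, y)) := by
    rw [l1, hnode, hnode2]
  have heq : lev (rk s k (e.1.1, x)) (rk s k (e.1.2, y))
      = lev (rk s k (e.1.1, x'')) (rk s k (e.1.2, y')) := l1.trans l2.symm
  rcases hk with hk | hk
  · exact crossing heq hcom ⟨rk_lt_of_lt p k hk.1, rk_lt_of_lt p k hk.2.1,
      rk_lt_of_lt p k hk.2.2.1, rk_lt_of_lt p k hk.2.2.2⟩
  · refine crossing heq.symm ?_ ⟨rk_lt_of_lt p k hk.1, rk_lt_of_lt p k hk.2.1,
      rk_lt_of_lt p k hk.2.2.1, rk_lt_of_lt p k hk.2.2.2⟩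
    rw [← heq]
    exact hcom.symm

open MvPolynomial in
/-- the polynomials whose signs are the sign vector -/
noncomputable def poly {V : Type} {C : ℕ} (j : V × V × Fin C) :
    MvPolynomial ((V × Fin 3) ⊕ (Fin C × Fin 3)) ℝ :=
  ∑ i : Fin 3, (X (Sum.inl (j.1, i)) - X (Sum.inl (j.2.1, i))) * X (Sum.inr (j.2.2, i))

open MvPolynomial in
lemma poly_deg {V : Type} {C : ℕ} (j : V × V × Fin C) : (poly j).totalDegree ≤ 2 := by
  unfold poly
  refine (totalDegree_finsetSum _ _).trans (Finset.sup_le fun i _ => ?_)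
  refine (totalDegree_mul _ _).trans ?_
  have h1 := totalDegree_sub (X (Sum.inl (j.1, i)) : MvPolynomial ((V × Fin 3) ⊕ (Fin C × Fin 3)) ℝ)
    (X (Sum.inl (j.2.1, i)))
  rw [totalDegree_X, totalDegree_X] at h1
  rw [totalDegree_X]
  simp only [max_self] at h1
  omega

open MvPolynomial in
lemma poly_eval {V : Type} {C : ℕ} (N : Fin C → E3) (φ : V → E3) (j : V × V × Fin C) :
    eval (Sum.elim (fun q : V × Fin 3 => φ q.1 q.2) fun q : Fin C × Fin 3 => N q.1 q.2) (poly j)
      = proj N φ j.2.2 j.1 - proj N φ j.2.2 j.2.1 := by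
  unfold poly proj
  simp only [map_sum, map_mul, map_sub, eval_X, Sum.elim_inl, Sum.elim_inr]
  rw [PiLp.inner_apply, PiLp.inner_apply, ← Finset.sum_sub_distrib]
  refine Finset.sum_congr rfl fun i _ => ?_
  simp
  ring

/-- The basic counting inequality. -/
lemma counting {n C L : ℕ} (hL : 14 * n < 2 ^ L)
    (h : ∀ τ : Pr → Equiv.Perm (Fin n), ∃ m ≤ C, HasPlaneSeparation (lift n τ) m) :
    n.factorial ^ 91 ≤ (8 * ((14 * n) ^ 2 * C) + 1) ^ (42 * n + 3 * C) *
      (L + 1) ^ (C * (2 * n) * 91) := by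
  classical
  have h1 : ∀ τ : Pr → Equiv.Perm (Fin n), ∃ (N : Fin C → E3) (φ : (Fin 14 × Fin n) → E3),
      Sep (lift n τ) (proj N φ) := by
    intro τ
    obtain ⟨m, hm, hs⟩ := h τ
    exact sep_of_plane hm hs
  choose N φ hsep using h1
  let s : (Pr → Equiv.Perm (Fin n)) → ((Fin 14 × Fin n) × (Fin 14 × Fin n) × Fin C → SignType) :=
    fun τ => sgn (proj (N τ) (φ τ))
  let S := Finset.univ.image s
  have hS : S.card ≤ (8 * ((14 * n) ^ 2 * C) + 1) ^ (42 * n + 3 * C) := by
    have := Pool.Agent.H247R2.Warren.sign_count (poly (V := Fin 14 × Fin n) (C := C)) 2 poly_deg S (by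
      intro σ hσ
      obtain ⟨τ, _, rfl⟩ := Finset.mem_image.1 hσ
      refine ⟨Sum.elim (fun q : (Fin 14 × Fin n) × Fin 3 => φ τ q.1 q.2)
        fun q : Fin C × Fin 3 => N τ q.1 q.2, fun j => ?_⟩
      rw [poly_eval]
      rfl)
    refine this.trans (le_of_eq ?_)
    simp only [Fintype.card_prod, Fintype.card_sum, Fintype.card_fin]
    congr 1 <;> ring
  -- injection
  have hlab : ∀ τ e z k, lab (s τ) τ e z k < L + 1 := by
    intro τ e z k
    have hc : Fintype.card (Fin 14 × Fin n) < 2 ^ L := by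
      simpa [Fintype.card_prod] using hL
    rcases z with x | y
    · exact lev_lt (lt_of_le_of_lt (rk_le_card _ _ _) hc) (lt_of_le_of_lt (rk_le_card _ _ _) hc)
    · exact lev_lt (lt_of_le_of_lt (rk_le_card _ _ _) hc) (lt_of_le_of_lt (rk_le_card _ _ _) hc)
  let F : (Pr → Equiv.Perm (Fin n)) → S × (Pr → (Fin n ⊕ Fin n) → Fin C → Fin (L + 1)) := fun τ =>
    (⟨s τ, Finset.mem_image_of_mem _ (Finset.mem_univ _)⟩, fun e z k => ⟨lab (s τ) τ e z k, hlab τ e z k⟩)
  have hF : Function.Injective F := by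
    intro τ τ' hττ
    have e1 : s τ = s τ' := congrArg (fun q => q.1.1) hττ
    have e2 : ∀ e z k, lab (s τ) τ e z k = lab (s τ') τ' e z k := by
      intro e z k
      have := congrArg (fun q => ((q.2 e z k : Fin (L + 1)) : ℕ)) hττ
      exact this
    refine lab_inj τ τ' (proj (N τ) (φ τ)) (hsep τ) fun e z k => ?_
    have := e2 e z k
    rw [← e1] at this
    exact this
  have hcard := Fintype.card_le_of_injective F hF
  have c1 : Fintype.card (Pr → Equiv.Perm (Fin n)) = n.factorial ^ 91 := by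
    rw [Fintype.card_fun, card_Pr, Fintype.card_perm, Fintype.card_fin]
  have c2 : Fintype.card (S × (Pr → (Fin n ⊕ Fin n) → Fin C → Fin (L + 1)))
      = S.card * (L + 1) ^ (C * (2 * n) * 91) := by
    rw [Fintype.card_prod, Fintype.card_coe, Fintype.card_fun, Fintype.card_fun, Fintype.card_fun,
      card_Pr, Fintype.card_sum, Fintype.card_fin, Fintype.card_fin, Fintype.card_fin, ← pow_mul,
      ← pow_mul]
    congr 2
    ring
  rw [c1, c2] at hcard
  exact hcard.trans (Nat.mul_le_mul_right _ hS)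


/-! ### The estimates -/

lemma sq_le_two_pow {j : ℕ} (hj : 4 ≤ j) : j ^ 2 ≤ 2 ^ j := by
  induction j, hj using Nat.le_induction with
  | base => norm_num
  | succ k hk ih =>
    rw [pow_succ 2 k]
    nlinarith

lemma poly_le_two_pow {h : ℕ} (hh : 11 ≤ h) : 3 * h * (11 + 3 * h) ≤ 2 ^ h := by
  induction h, hh using Nat.le_induction with
  | base => norm_num
  | succ k hk ih =>
    rw [pow_succ 2 k]
    nlinarith

lemma pow_le_factorial_mul (n : ℕ) : n ^ n ≤ n.factorial * 4 ^ n := by
  have h1 : (n : ℝ) ^ n / n.factorial ≤ Real.exp n :=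
    Real.pow_div_factorial_le_exp (n : ℝ) (Nat.cast_nonneg n) n
  have h2 : Real.exp n ≤ 4 ^ n := by
    have : Real.exp (n : ℝ) = Real.exp 1 ^ n := by
      rw [← Real.exp_nat_mul, mul_one]
    rw [this]
    exact pow_le_pow_left₀ (Real.exp_pos 1).le (by linarith [Real.exp_one_lt_d9]) n
  have h3 : (0 : ℝ) < n.factorial := by exact_mod_cast n.factorial_pos
  have h4 : (n : ℝ) ^ n ≤ n.factorial * 4 ^ n := by
    rw [div_le_iff₀ h3] at h1
    calc (n : ℝ) ^ n ≤ Real.exp n * n.factorial := h1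
      _ ≤ 4 ^ n * n.factorial := by gcongr
      _ = _ := mul_comm _ _
  exact_mod_cast h4

/-- For every `C` some lift has no plane-separating embedding with at most `C` planes. -/
lemma exists_bad (C : ℕ) : ∃ (n : ℕ) (τ : Pr → Equiv.Perm (Fin n)),
    ∀ m ≤ C, ¬ HasPlaneSeparation (lift n τ) m := by
  by_contra hcon
  push Not at hcon
  obtain ⟨D, hD⟩ : ∃ D, D = C + 1 := ⟨_, rfl⟩
  obtain ⟨j, hj⟩ : ∃ j, j = 26 * D + 20 := ⟨_, rfl⟩
  obtain ⟨h, hh⟩ : ∃ h, h + 5 = 2 ^ j := ⟨2 ^ j - 5, by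
    have h1 : j ^ 2 ≤ 2 ^ j := sq_le_two_pow (by omega)
    have h2 : 20 ≤ j := by omega
    have : 5 ≤ 2 ^ j := by nlinarith
    omega⟩
  have hjj : j ^ 2 ≤ h + 5 := by
    rw [hh]
    exact sq_le_two_pow (by omega)
  obtain ⟨n, hn⟩ : ∃ n, n = 2 ^ h := ⟨_, rfl⟩
  have hn1 : 1 ≤ n := by rw [hn]; exact Nat.one_le_two_pow
  have hcount := counting (n := n) (C := D) (L := h + 4) (by
    rw [hn, pow_add]
    have : 0 < 2 ^ h := by positivity
    omega) (fun τ => by
    obtain ⟨m, hm, hs⟩ := hcon n τ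
    exact ⟨m, by omega, hs⟩)
  have hL : h + 4 + 1 = 2 ^ j := by omega
  rw [hL] at hcount
  -- lower bound
  have hfac : 2 ^ (h * n) ≤ n.factorial * 2 ^ (2 * n) := by
    have := pow_le_factorial_mul n
    have e1 : n ^ n = 2 ^ (h * n) := by
      conv_lhs => rw [hn]
      rw [← pow_mul, ← hn]
    have e2 : (4 : ℕ) ^ n = 2 ^ (2 * n) := by
      rw [pow_mul]; norm_num
    rwa [e1, e2] at this
  have hup : 8 * ((14 * n) ^ 2 * D) + 1 ≤ 2 ^ (11 + 2 * h + D) := by
    have e1 : 2 ^ (11 + 2 * h + D) = 2048 * (n ^ 2 * 2 ^ D) := by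
      rw [pow_add, pow_add, hn, ← pow_mul, mul_comm h 2]
      norm_num
      ring
    rw [e1]
    have h1 : D ≤ 2 ^ D := Nat.lt_two_pow_self.le
    have h2 : 1 ≤ n ^ 2 * D := Nat.mul_pos (by positivity) (by omega)
    calc 8 * ((14 * n) ^ 2 * D) + 1 = 1568 * (n ^ 2 * D) + 1 := by ring
      _ ≤ 2048 * (n ^ 2 * D) := by omega
      _ ≤ 2048 * (n ^ 2 * 2 ^ D) := by gcongr
  have hexp : 2 ^ (91 * (h * n)) ≤
      2 ^ ((11 + 2 * h + D) * (42 * n + 3 * D) + j * (D * (2 * n) * 91) + 182 * n) := by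
    calc 2 ^ (91 * (h * n)) = (2 ^ (h * n)) ^ 91 := by rw [← pow_mul, mul_comm]
      _ ≤ (n.factorial * 2 ^ (2 * n)) ^ 91 := Nat.pow_le_pow_left hfac 91
      _ = n.factorial ^ 91 * 2 ^ (182 * n) := by
        rw [mul_pow, ← pow_mul]
        congr 2
        ring
      _ ≤ ((8 * ((14 * n) ^ 2 * D) + 1) ^ (42 * n + 3 * D) * (2 ^ j) ^ (D * (2 * n) * 91))
          * 2 ^ (182 * n) := Nat.mul_le_mul_right _ hcount
      _ ≤ ((2 ^ (11 + 2 * h + D)) ^ (42 * n + 3 * D) * (2 ^ j) ^ (D * (2 * n) * 91))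
          * 2 ^ (182 * n) := by gcongr
      _ = _ := by rw [← pow_mul, ← pow_mul, ← pow_add, ← pow_add]
  have hle := (Nat.pow_le_pow_iff_right (by norm_num : 1 < 2)).1 hexp
  -- final contradiction
  have hDh : D ≤ h := by nlinarith
  have h11 : 11 ≤ h := by nlinarith
  have hbig : 3 * D * (11 + 2 * h + D) ≤ n := by
    calc 3 * D * (11 + 2 * h + D) ≤ 3 * h * (11 + 3 * h) := by
          apply Nat.mul_le_mul
          · omega
          · omega
      _ ≤ 2 ^ h := poly_le_two_pow h11
      _ = n := hn.symm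
  have h7 : 645 + 42 * D + 182 * (j * D) < 7 * h := by
    have e1 : j ^ 2 = j * (26 * D + 20) := by rw [← hj]; ring
    have e2 : 7 * j ^ 2 = 182 * (j * D) + 140 * j := by rw [e1]; ring
    omega
  have h8 : (645 + 42 * D + 182 * (j * D) + 1) * n ≤ 7 * h * n := Nat.mul_le_mul_right n h7
  nlinarith

/-- **Answer to Q1: no.** For every `C` there is a graph with separation dimension at most `182` and
`π₃ > C` (a lift of `K₁₄`, so 13-regular); hence `π₃` is not bounded by a function of the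
separation dimension. -/
theorem result :
    (∀ C : ℕ, ∃ (n : ℕ) (G : SimpleGraph (Fin 14 × Fin n)), sepDim G ≤ 182 ∧ (C : ℕ∞) < pi3 G) ∧
    ¬ ∃ f : ℕ → ℕ, ∀ (V : Type) [Finite V] (G : SimpleGraph V), pi3 G ≤ (f (sepDim G) : ℕ∞) := by
  have main : ∀ C : ℕ, ∃ (n : ℕ) (G : SimpleGraph (Fin 14 × Fin n)),
      sepDim G ≤ 182 ∧ (C : ℕ∞) < pi3 G := by
    intro C
    obtain ⟨n, τ, hτ⟩ := exists_bad C
    refine ⟨n, lift n τ, sepDim_le τ, ?_⟩
    have h1 : ((C + 1 : ℕ) : ℕ∞) ≤ pi3 (lift n τ) := by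
      apply le_sInf
      rintro _ ⟨m, rfl, hm⟩
      by_contra hlt
      rw [not_le] at hlt
      have hlt' : m < C + 1 := by exact_mod_cast hlt
      exact hτ m (by omega) hm
    refine lt_of_lt_of_le ?_ h1
    exact_mod_cast Nat.lt_succ_self C
  refine ⟨main, ?_⟩
  rintro ⟨f, hf⟩
  obtain ⟨n, G, h1, h2⟩ := main ((Finset.range 183).sup f)
  have h3 := hf _ G
  have h4 : f (sepDim G) ≤ (Finset.range 183).sup f :=
    Finset.le_sup (f := f) (Finset.mem_range.2 (by omega))
  have h5 : (f (sepDim G) : ℕ∞) ≤ ((Finset.range 183).sup f : ℕ) := by exact_mod_cast h4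
  exact absurd (h2.trans_le (h3.trans h5)) (lt_irrefl _)

end Pool.Agent.Results.MP_38bec9_co.NotBounded
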